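import Mathlib
import Pool.Agent.H.MP_d6a58d_co.B

namespace Pool.Agent.Results.MP_d6a58d_co.Yes
open Finset
open Classical

/-- A loopless multigraph on vertex type `V` with edge type `E` is given by `ends`, which sends
an edge to the set of its two end vertices.  A triangle is the set of three edges joining
`u,v`, `v,w` and `w,u` for distinct vertices `u,v,w`. -/
def IsTri {V E : Type} [DecidableEq V] [DecidableEq E] (ends : E → Finset V) (T : Finset E) : Prop :=
  ∃ (u v w : V) (e₁ e₂ e₃ : E), u ≠ v ∧ v ≠ w ∧ w ≠ u ∧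
    ends e₁ = {u, v} ∧ ends e₂ = {v, w} ∧ ends e₃ = {w, u} ∧ T = {e₁, e₂, e₃}

/-- rational triangle decomposition -/
def IsDec {V E : Type} [DecidableEq V] [DecidableEq E] [Fintype E] (ends : E → Finset V)
    (w : Finset E → ℚ) : Prop :=
  (∀ T, IsTri ends T → 0 ≤ w T) ∧
    ∀ e : E, ∑ T ∈ univ.filter (fun T : Finset E => IsTri ends T ∧ e ∈ T), w T = 1

/-- the underlying simple graph has a straight-line plane drawing -/
def Planar {V E : Type} [DecidableEq V] (ends : E → Finset V) : Prop :=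
  ∃ p : V → ℝ × ℝ, Function.Injective p ∧
    (∀ (e : E) (u v w : V), ends e = {u, v} → p w ∈ segment ℝ (p u) (p v) → w = u ∨ w = v) ∧
    ∀ (e f : E) (u v x y : V) (z : ℝ × ℝ), ends e = {u, v} → ends f = {x, y} → ends e ≠ ends f →
      z ∈ segment ℝ (p u) (p v) → z ∈ segment ℝ (p x) (p y) →
      ∃ w, w ∈ ends e ∧ w ∈ ends f ∧ z = p w

open Pool.Agent.H.MP_d6a58d_co

section
variable {V E : Type} [DecidableEq V] [DecidableEq E] [Fintype V] [Fintype E] {ends : E → Finset V}

def adjE (ends : E → Finset V) (s : Finset V) : Prop := ∃ e, ends e = s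

lemma tri_facts {T : Finset E} (h : IsTri ends T) :
    VT (adjE ends) (T.biUnion ends) ∧ (∀ s : Finset V, s.card = 2 → s ⊆ T.biUnion ends →
      ∃ e, T.filter (fun e => ends e = s) = {e}) ∧
      ∀ e ∈ T, ends e ⊆ T.biUnion ends := by
  obtain ⟨u, v, w, e1, e2, e3, huv, hvw, hwu, a1, a2, a3, rfl⟩ := h
  have hb : ({e1, e2, e3} : Finset E).biUnion ends = {u, v, w} := by
    ext x; simp [a1, a2, a3]; tauto
  have n1 : ({u, v} : Finset V) ≠ {v, w} := by
    intro h
    have : u ∈ ({v, w} : Finset V) := h ▸ mem_insert_self _ _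
    simp [huv, hwu.symm] at this
  have n2 : ({v, w} : Finset V) ≠ {w, u} := by
    intro h
    have : v ∈ ({w, u} : Finset V) := h ▸ mem_insert_self _ _
    simp [hvw, huv.symm] at this
  have n3 : ({w, u} : Finset V) ≠ {u, v} := by
    intro h
    have : w ∈ ({u, v} : Finset V) := h ▸ mem_insert_self _ _
    simp [hwu, hvw.symm] at this
  have p3 : ∀ s : Finset V, s.card = 2 → s ⊆ {u, v, w} → s = {u, v} ∨ s = {v, w} ∨ s = {w, u} := by
    intro s h1 h2
    have := pairs3' huv hvw hwu.symm s h1 h2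
    rwa [pair_comm u w] at this
  refine ⟨⟨?_, ?_⟩, ?_, fun e he => subset_biUnion_of_mem ends he⟩
  · rw [hb]; exact card_eq_three.2 ⟨u, v, w, huv, hwu.symm, hvw, rfl⟩
  · intro s h1 h2
    rw [hb] at h2
    rcases p3 s h1 h2 with rfl | rfl | rfl
    exacts [⟨e1, a1⟩, ⟨e2, a2⟩, ⟨e3, a3⟩]
  · intro s h1 h2
    rw [hb] at h2
    rcases p3 s h1 h2 with rfl | rfl | rfl
    · exact ⟨e1, by simp [filter_insert, filter_singleton, a1, a2, a3, n1.symm, n3]⟩
    · exact ⟨e2, by simp [filter_insert, filter_singleton, a1, a2, a3, n1, n2.symm]⟩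
    · exact ⟨e3, by simp [filter_insert, filter_singleton, a1, a2, a3, n3.symm, n2]⟩

lemma collapse (h2 : ∀ e, (ends e).card = 2) (w : Finset E → ℚ) (hw : IsDec ends w)
    (s : Finset V) (hs : s.card = 2) :
    ∑ σ ∈ fs (fun σ : XT (adjE ends) => s ⊆ σ.1),
      ∑ T ∈ fs (fun T : Finset E => IsTri ends T ∧ T.biUnion ends = σ.1), w T =
      ((fs fun e : E => ends e = s).card : ℕ) := by
  have r : (((fs fun e : E => ends e = s).card : ℕ) : ℚ) =
      ∑ e ∈ fs (fun e : E => ends e = s), ∑ T ∈ fs (fun T : Finset E => IsTri ends T),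
        if e ∈ T then w T else 0 := by
    rw [card_eq_sum_ones]
    push_cast
    refine sum_congr rfl fun e _ => ?_
    rw [sum_fs_ite, ← hw.2 e]
    congr 1
    ext T; simp
  have l : ∀ σ : XT (adjE ends), ∑ T ∈ fs (fun T : Finset E => IsTri ends T ∧ T.biUnion ends = σ.1), w T =
      ∑ T ∈ fs (fun T : Finset E => IsTri ends T), if T.biUnion ends = σ.1 then w T else 0 := by
    intro σ; rw [sum_fs_ite]
  simp only [l]
  rw [r, sum_comm, sum_comm (s := fs (fun e : E => ends e = s))]
  refine sum_congr rfl fun T hT => ?_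
  rw [mem_fs] at hT
  obtain ⟨f1, f2, f3⟩ := tri_facts hT
  rw [sum_fs_ite, sum_fs_ite]
  by_cases hc : s ⊆ T.biUnion ends
  · obtain ⟨e, he⟩ := f2 s hs hc
    have a1 : fs (fun σ : XT (adjE ends) => s ⊆ σ.1 ∧ T.biUnion ends = σ.1) = {⟨_, f1⟩} := by
      ext σ
      simp only [mem_fs, mem_singleton]
      constructor
      · rintro ⟨-, b⟩; exact Subtype.ext b.symm
      · rintro rfl; exact ⟨hc, rfl⟩
    have a2 : fs (fun e : E => ends e = s ∧ e ∈ T) = {e} := by
      rw [← he]; ext x; simp [and_comm]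
    rw [a1, a2, sum_singleton, sum_singleton]
  · rw [sum_eq_zero, sum_eq_zero]
    · intro e he
      rw [mem_fs] at he
      exact absurd (he.1 ▸ f3 e he.2) hc
    · intro σ hσ
      rw [mem_fs] at hσ
      exact absurd (hσ.2 ▸ hσ.1) hc

lemma lift (h2 : ∀ e, (ends e).card = 2) (N : XT (adjE ends) → ℕ)
    (hN : ∀ s : Finset V, s.card = 2 → ∑ σ ∈ fs (fun σ : XT (adjE ends) => s ⊆ σ.1), N σ =
      2 * (fs fun e : E => ends e = s).card) :
    ∃ w, IsDec ends w ∧ ∀ T, IsTri ends T → w T = 0 ∨ w T = 1 / 2 ∨ w T = 1 := by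
  let Y := Σ σ : XT (adjE ends), Fin (N σ)
  have hg : ∀ s : Finset V, s.card = 2 → ∃ g : Y → Option E,
      (∀ y : Y, s ⊆ y.1.1 → ∃ e, g y = some e ∧ ends e = s) ∧
      ∀ e, ends e = s → (fs fun y : Y => s ⊆ y.1.1 ∧ g y = some e).card = 2 := by
    intro s hs
    have c : Fintype.card {y : Y // s ⊆ y.1.1} = Fintype.card ({e : E // ends e = s} × Fin 2) := by
      rw [Fintype.card_prod, Fintype.card_fin, Fintype.card_subtype, Fintype.card_subtype, mul_comm]
      have e1 : (univ.filter fun e : E => ends e = s) = fs fun e : E => ends e = s := by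
        ext; simp
      have e2 : (univ.filter fun y : Y => s ⊆ y.1.1) =
          (fs (fun σ : XT (adjE ends) => s ⊆ σ.1)).sigma (fun σ => univ) := by
        ext y
        rw [mem_filter, mem_sigma, mem_fs]
        simp
      rw [e1, ← hN s hs, e2, card_sigma]
      simp
    let β := Fintype.equivOfCardEq c
    refine ⟨fun y => if h : s ⊆ y.1.1 then some (β ⟨y, h⟩).1.1 else none, ?_, ?_⟩
    · intro y hy
      exact ⟨_, dif_pos hy, (β ⟨y, hy⟩).1.2⟩
    · intro e he
      have : (fs fun y : Y => s ⊆ y.1.1 ∧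
          (if h : s ⊆ y.1.1 then some (β ⟨y, h⟩).1.1 else none) = some e) =
          (univ : Finset (Fin 2)).map ⟨fun j => (β.symm (⟨e, he⟩, j)).1, fun i j hij => by
            have := β.symm.injective (Subtype.ext hij)
            simpa using this⟩ := by
        ext y
        simp only [mem_fs, mem_map, mem_univ, true_and, Function.Embedding.coeFn_mk]
        constructor
        · rintro ⟨a1, a2⟩
          rw [dif_pos a1, Option.some.injEq] at a2
          refine ⟨(β ⟨y, a1⟩).2, ?_⟩
          have : ((⟨e, he⟩ : {e : E // ends e = s}), (β ⟨y, a1⟩).2) = β ⟨y, a1⟩ :=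
            Prod.ext (Subtype.ext a2.symm) rfl
          rw [this, Equiv.symm_apply_apply]
        · rintro ⟨j, rfl⟩
          refine ⟨(β.symm (⟨e, he⟩, j)).2, ?_⟩
          rw [dif_pos (β.symm (⟨e, he⟩, j)).2]
          simp
      rw [this]; simp
  choose! g g1 g2 using hg
  let t : Y → Finset E := fun y => fs fun e => ends e ⊆ y.1.1 ∧ g (ends e) y = some e
  have ht : ∀ y, IsTri ends (t y) := by
    intro y
    obtain ⟨a, b, c, hab, hac, hbc, hv⟩ := card_eq_three.1 y.1.2.1
    obtain ⟨e1, a1, b1⟩ := g1 {a, b} (card_pair hab) y (by rw [hv]; intro x; simp; tauto)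
    obtain ⟨e2, a2, b2⟩ := g1 {b, c} (card_pair hbc) y (by rw [hv]; intro x; simp; tauto)
    obtain ⟨e3, a3, b3⟩ := g1 {a, c} (card_pair hac) y (by rw [hv]; intro x; simp; tauto)
    refine ⟨a, b, c, e1, e2, e3, hab, hbc, hac.symm, b1, b2, by rw [b3, pair_comm], ?_⟩
    ext e
    simp only [t, mem_fs, mem_insert, mem_singleton]
    constructor
    · rintro ⟨c1, c2⟩
      rw [hv] at c1
      rcases pairs3' hab hbc hac (ends e) (h2 e) c1 with h' | h' | h'
      · rw [h', a1] at c2; left; exact (Option.some.inj c2).symm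
      · rw [h', a2] at c2; right; left; exact (Option.some.inj c2).symm
      · rw [h', a3] at c2; right; right; exact (Option.some.inj c2).symm
    · rintro (rfl | rfl | rfl)
      · rw [b1, hv]; exact ⟨by intro x; simp; tauto, a1⟩
      · rw [b2, hv]; exact ⟨by intro x; simp; tauto, a2⟩
      · rw [b3, hv]; exact ⟨by intro x; simp; tauto, a3⟩
  have hc : ∀ e, (fs fun y : Y => e ∈ t y).card = 2 := by
    intro e
    rw [← g2 (ends e) (h2 e) e rfl]
    congr 1
    ext y; simp [t]
  refine ⟨fun T => ((fs fun y : Y => t y = T).card : ℚ) / 2, ⟨fun T _ => by positivity, ?_⟩, ?_⟩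
  · intro e
    rw [← sum_div, ← Nat.cast_sum]
    have := card_eq_sum_card_fiberwise (f := t) (s := fs fun y : Y => e ∈ t y)
      (t := univ.filter (fun T : Finset E => IsTri ends T ∧ e ∈ T)) (by
        intro y hy
        simp only [mem_coe, mem_fs] at hy
        simp [ht y, hy])
    rw [hc] at this
    rw [sum_congr rfl (g := fun T => ((fs fun y : Y => e ∈ t y).filter fun y => t y = T).card),
      ← this]
    · norm_num
    · intro T hT
      congr 1
      ext y
      simp only [mem_filter, mem_univ, true_and] at hT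
      simp only [mem_fs, mem_filter]
      exact ⟨fun h => ⟨h ▸ hT.2, h⟩, fun h => h.2⟩
  · intro T hT
    obtain ⟨u, v, w, e1, e2, e3, -, -, -, -, -, -, e⟩ := hT
    have : (fs fun y : Y => t y = T).card ≤ 2 := by
      rw [← hc e1]
      apply card_le_card
      intro y
      simp only [mem_fs]
      rintro rfl
      rw [e]; simp
    beta_reduce
    generalize (fs fun y : Y => t y = T).card = k at this
    interval_cases k <;> norm_num

end

theorem result (V E : Type) [DecidableEq V] [DecidableEq E] [Fintype V] [Fintype E]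
    (ends : E → Finset V) (h2 : ∀ e, (ends e).card = 2) (hpl : Planar ends)
    (hdec : ∃ w, IsDec ends w) :
    ∃ w, IsDec ends w ∧ ∀ T, IsTri ends T → w T = 0 ∨ w T = 1 / 2 ∨ w T = 1 := by
  obtain ⟨p, p1, p2, p3⟩ := hpl
  obtain ⟨w, hw⟩ := hdec
  have hp : Pl (adjE ends) p := by
    refine ⟨p1, fun u v w ⟨e, he⟩ h => p2 e u v w he h, ?_⟩
    rintro u v x y z ⟨e, he⟩ ⟨f, hf⟩ hne h1 h2
    have := p3 e f u v x y z he hf (by rwa [he, hf]) h1 h2
    rwa [he, hf] at this
  obtain ⟨N, hN⟩ := round2 hp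
    (fun σ => ∑ T ∈ fs (fun T : Finset E => IsTri ends T ∧ T.biUnion ends = σ.1), w T)
    (fun σ => sum_nonneg fun T hT => hw.1 T (mem_fs.1 hT).1)
    (fun s => (fs fun e : E => ends e = s).card) (fun s hs => collapse h2 w hw s hs)
  exact lift h2 N hN

end Pool.Agent.Results.MP_d6a58d_co.Yes
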